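import Pool.Agent.DistinctMahler.Walk

set_option autoImplicit false

namespace Pool.Agent.Results.MP_5d730e_nt.IncreasingSubsequence
open Pool.Agent.DistinctMahler

/-- For `k ≥ 1` and `N > 2k` let `F = z_1 ... z_k (N - ∑ (z_i + 1/z_i))`, an integer polynomial of
dimension `k`. Then `F_A ≠ 0` for every integer matrix `A`, and every sequence `H_0, H_1, ...` of
pairwise different matrices in saturated Hermite normal form has a subsequence along which
`m(F_H)` is strictly increasing. In particular `H ↦ m(F_H)` is finite-to-one. -/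
theorem result (k N : ℕ) (hN : 2 * k < N) :
    dimension (latticePoly k N) = k ∧
    (∀ (l : ℕ) (A : Matrix (Fin l) (Fin k) ℤ), spec (latticePoly k N) A ≠ 0) ∧
    ∀ H : ℕ → Σ l : ℕ, Matrix (Fin l) (Fin k) ℤ, Function.Injective H →
      (∀ n, IsSHNF (H n).2) →
      ∃ φ : ℕ → ℕ, StrictMono φ ∧
        StrictMono (fun n => mahler (spec (latticePoly k N) (H (φ n)).2)) := by
  classical
  obtain ⟨hsum, hexp⟩ := latticePoly_expansion k N hN
  have hneg : ∀ v, v ≠ 0 → cw k N v < 0 := fun v hv => cw_neg k N hN v hv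
  have hmah : ∀ (l : ℕ) (A : Matrix (Fin l) (Fin k) ℤ),
      mahler (spec (latticePoly k N) A) = ∑' v, if v ∈ kerL A then cw k N v else 0 := by
    intro l A
    rw [mahler_spec_eq _ (cw k N) hsum (fun θ => (hexp θ).2.tsum_eq.symm)]
    apply tsum_congr
    intro v
    by_cases h : A.mulVec v = 0
    · rw [if_pos h, if_pos (show v ∈ kerL A from h)]
    · rw [if_neg h, if_neg (show v ∉ kerL A from h)]
  refine ⟨dimension_eq _ _ hneg hexp, ?_, ?_⟩
  · intro l A h0
    have h1 := torusEval_spec (latticePoly k N) A 0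
    rw [h0] at h1
    have h2 : torusEval (0 : Laurent l) 0 = 0 := by simp [torusEval]
    rw [h2] at h1
    exact (hexp _).1 h1.symm
  · intro H hH hS
    have hinj : Function.Injective (fun n => kerL (H n).2) := by
      intro a b hab
      apply hH
      exact eq_of_kerL_eq (H a).2 (H b).2 (hS a) (hS b) hab
    obtain ⟨φ, hφ1, hφ2⟩ := exists_increasing_subseq (cw k N) hsum hneg _ hinj
    refine ⟨φ, hφ1, ?_⟩
    intro a b hab
    have := hφ2 hab
    simp only at this ⊢
    rw [hmah, hmah]
    exact this

end Pool.Agent.Results.MP_5d730e_nt.IncreasingSubsequence
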