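import Pool.Agent.DistinctMahler.Final2

set_option autoImplicit false

namespace Pool.Agent.Results.MP_5d730e_nt.InjectiveUpToThree
open Pool.Agent.DistinctMahler

/-- For all `k ≥ 2` and `η > 0` there is an integer polynomial `F` in `k` variables, of dimension
`k`, with `F_A ≠ 0` for all integer matrices `A`, such that:
if `k ≤ 3` then `H ↦ m(F_H)` is injective on the matrices in saturated Hermite normal form;
for every `k`, if `m(F_H) = m(F_H')` for two different such matrices, of ranks `l` and `l'`, then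
`1 ≤ l, l' ≤ k - 2`, `l + l' ≥ 3`, neither of the kernel lattices of `H`, `H'` contains the other,
and they have a common nonzero vector shorter than `η` times every vector that lies in exactly one
of them. -/
theorem result (k : ℕ) (hk : 2 ≤ k) (η : ℝ) (hη : 0 < η) :
    ∃ F : MvPolynomial (Fin k) ℤ,
      dimension F = k ∧
      (∀ (l : ℕ) (A : Matrix (Fin l) (Fin k) ℤ), spec F A ≠ 0) ∧
      (k ≤ 3 → ∀ (l l' : ℕ) (H : Matrix (Fin l) (Fin k) ℤ) (H' : Matrix (Fin l') (Fin k) ℤ),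
        IsSHNF H → IsSHNF H' → mahler (spec F H) = mahler (spec F H') →
        (⟨l, H⟩ : Σ l, Matrix (Fin l) (Fin k) ℤ) = ⟨l', H'⟩) ∧
      (∀ (l l' : ℕ) (H : Matrix (Fin l) (Fin k) ℤ) (H' : Matrix (Fin l') (Fin k) ℤ),
        IsSHNF H → IsSHNF H' → mahler (spec F H) = mahler (spec F H') →
        (⟨l, H⟩ : Σ l, Matrix (Fin l) (Fin k) ℤ) ≠ ⟨l', H'⟩ →
        (1 ≤ l ∧ l + 2 ≤ k) ∧ (1 ≤ l' ∧ l' + 2 ≤ k) ∧ 3 ≤ l + l' ∧
        (∃ v, H.mulVec v = 0 ∧ H'.mulVec v ≠ 0) ∧ (∃ v, H'.mulVec v = 0 ∧ H.mulVec v ≠ 0) ∧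
        ∃ v0, v0 ≠ 0 ∧ H.mulVec v0 = 0 ∧ H'.mulVec v0 = 0 ∧
          ∀ v, (H.mulVec v = 0 ∧ H'.mulVec v ≠ 0) ∨ (H'.mulVec v = 0 ∧ H.mulVec v ≠ 0) →
            (len v0 : ℝ) < η * (len v : ℝ)) := by
  obtain ⟨F, h1, h2, h3⟩ := main2 k hk η hη
  refine ⟨F, h1, h2, ?_, h3⟩
  intro hk3 l l' H H' hH hH' heq
  by_contra hne
  obtain ⟨⟨_, h4⟩, ⟨_, h5⟩, h6, _⟩ := h3 l l' H H' hH hH' heq hne
  omega

end Pool.Agent.Results.MP_5d730e_nt.InjectiveUpToThree
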